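import Pool.Agent.Helper56_MG.Combine

/-!
# Consistency of r < d <= add(Menger) with two Menger sets of reals whose product is not Menger
-/

open Pool.Agent.FL Pool.Agent.Men

namespace Pool.Agent.Results.MP_f3af1a_lc.NonproductiveMenger

/-- There is a model of ZFC with standard natural numbers in which some reaping family has
cardinality less than the dominating number, every family of fewer than dominating number many
Menger sets of reals has a Menger union, and there are Menger sets of reals `X`, `Y` such that
`X × Y` is not Menger. -/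
theorem result : ∃ (M : Type) (E : M → M → Prop), IsZFC E ∧ OmegaStd E ∧
    (∃ R : M, ReapIn E R ∧ ¬ DomLe E R) ∧
    (∀ F : M, (∀ A, E A F → IsRealSet E A ∧ MengerIn E (realsOf E A)) →
      (∀ U : M, (∀ x, E x U ↔ ∃ A, E A F ∧ E x A) → MengerIn E (realsOf E U)) ∨ DomLe E F) ∧
    ∃ X Y : M, IsRealSet E X ∧ IsRealSet E Y ∧ MengerIn E (realsOf E X) ∧
      MengerIn E (realsOf E Y) ∧ ¬ MengerIn2 E (realsOf E X ×ˢ realsOf E Y) :=
  Pool.Agent.MenG.final Pool.Agent.MG.DD Pool.Agent.MG.combineAll

end Pool.Agent.Results.MP_f3af1a_lc.NonproductiveMenger
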